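import Pool.Agent.TH784.KE.One

/-!
# Kolmogorov extensions and unrestricted boxes
-/

set_option autoImplicit false
set_option linter.unusedSectionVars false

open MeasureTheory Filter Topology
open scoped ENNReal

noncomputable section

namespace Pool.Agent.U547.KB

open Pool.Agent.TH784.KE
open Pool.Agent.W761.Box (bx bxc BM Good1 bxc_add bxc_sub bxc_mul dz orb bx_bound bx_sub bx_mul
  bx_abs bx_mono bx_const_le)

section shift

variable {k : ℕ}

/-- shift of one coordinate -/
theorem shift_one {N : Fin k → ℕ} (hN : ∀ j, 1 ≤ N j) (l : Fin k) {φ : (Fin k → ℕ) → ℝ} {C : ℝ}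
    (hC : ∀ m, |φ m| ≤ C) :
    |bx k N φ - bx k N (fun m => φ (Function.update m l (m l + 1)))| ≤ 2 * C / N l := by
  have h0 : 0 ≤ C := (abs_nonneg _).trans (hC 0)
  have hNl : (0 : ℝ) < N l := by exact_mod_cast hN l
  rw [bx_slice hN l φ, bx_slice hN l (fun m => φ (Function.update m l (m l + 1))), ← bx_sub]
  refine bx_bound (by positivity) fun m => ?_
  rw [← mul_sub, ← Finset.sum_sub_distrib]
  have h1 : ∑ t ∈ Finset.range (N l), (φ (Function.update m l t) -
      φ (Function.update (Function.update m l t) l ((Function.update m l t) l + 1))) =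
      φ (Function.update m l 0) - φ (Function.update m l (N l)) := by
    rw [← Finset.sum_range_sub' (fun t => φ (Function.update m l t))]
    refine Finset.sum_congr rfl fun t _ => ?_
    rw [Function.update_self, Function.update_idem]
  rw [h1, abs_mul, abs_of_pos (inv_pos.2 hNl), inv_mul_eq_div]
  refine div_le_div_of_nonneg_right ?_ hNl.le
  have := abs_sub (φ (Function.update m l 0)) (φ (Function.update m l (N l)))
  linarith [hC (Function.update m l 0), hC (Function.update m l (N l))]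

/-- shift of the coordinates in `s` -/
def sh (s : Finset (Fin k)) (m : Fin k → ℕ) : Fin k → ℕ := fun j => if j ∈ s then m j + 1 else m j

theorem shift_set {N : Fin k → ℕ} (hN : ∀ j, 1 ≤ N j) {φ : (Fin k → ℕ) → ℝ} {C : ℝ}
    (hC : ∀ m, |φ m| ≤ C) (s : Finset (Fin k)) :
    |bx k N φ - bx k N (fun m => φ (sh s m))| ≤ ∑ l ∈ s, 2 * C / N l := by
  classical
  induction s using Finset.induction_on with
  | empty =>
    have h1 : (fun m : Fin k → ℕ => φ (sh ∅ m)) = φ := by
      funext m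
      congr 1
    rw [h1, sub_self, abs_zero, Finset.sum_empty]
  | insert l s hl ih =>
    have h1 := shift_one hN l (φ := fun m => φ (sh s m)) (fun m => hC _)
    have h2 : (fun m : Fin k → ℕ => φ (sh s (Function.update m l (m l + 1)))) =
        fun m => φ (sh (insert l s) m) := by
      funext m
      congr 1
      funext j
      unfold sh
      by_cases hj : j = l
      · subst hj
        simp [hl]
      · simp [hj]
    rw [h2] at h1
    rw [Finset.sum_insert hl]
    have h3 := abs_sub_le (bx k N φ) (bx k N (fun m => φ (sh s m)))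
      (bx k N (fun m => φ (sh (insert l s) m)))
    linarith

/-- averages over `[0, N)` and over `[1, N]` -/
theorem tendsto_shift {φ : (Fin k → ℕ) → ℝ} {C : ℝ} (hC : ∀ m, |φ m| ≤ C) :
    Tendsto (fun N => bx k N φ - bx k N (fun m => φ (fun j => m j + 1))) atTop (𝓝 0) := by
  have h1 : Tendsto (fun N : Fin k → ℕ => ∑ l : Fin k, 2 * C / (N l : ℝ)) atTop (𝓝 0) := by
    have h2 : Tendsto (fun N : Fin k → ℕ => ∑ l : Fin k, 2 * C / (N l : ℝ)) atTop
        (𝓝 (∑ _l : Fin k, (0 : ℝ))) := by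
      refine tendsto_finsetSum _ fun l _ => ?_
      refine Tendsto.div_atTop tendsto_const_nhds ?_
      refine tendsto_natCast_atTop_atTop.comp (tendsto_atTop_atTop.2 fun b => ⟨fun _ => b,
        fun N hN => hN l⟩)
    rwa [Finset.sum_const_zero] at h2
  refine squeeze_zero_norm' ?_ h1
  refine eventually_atTop.2 ⟨fun _ => 1, fun N hN => ?_⟩
  have h3 := shift_set (k := k) hN hC Finset.univ
  have h4 : (fun m : Fin k → ℕ => φ (sh Finset.univ m)) = fun m => φ (fun j => m j + 1) := by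
    funext m
    congr 1
    funext j
    simp [sh]
  rw [h4] at h3
  exact h3

/-- the box `[1, M_1] × ⋯ × [1, M_k]` -/
theorem sum_Icc {E : Type*} [AddCommMonoid E] (M : Fin k → ℕ) (F : (Fin k → ℕ) → E) :
    ∑ m ∈ Fintype.piFinset (fun l => Finset.Icc 1 (M l)), F m =
      ∑ m ∈ Fintype.piFinset (fun l => Finset.range (M l)), F (fun j => m j + 1) := by
  refine Finset.sum_bij' (fun m _ => fun j => m j - 1) (fun m _ => fun j => m j + 1) ?_ ?_ ?_ ?_ ?_
  · intro m hm
    rw [Fintype.mem_piFinset] at hm ⊢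
    intro j
    have := Finset.mem_Icc.1 (hm j)
    rw [Finset.mem_range]
    omega
  · intro m hm
    rw [Fintype.mem_piFinset] at hm ⊢
    intro j
    have := Finset.mem_range.1 (hm j)
    rw [Finset.mem_Icc]
    omega
  · intro m hm
    rw [Fintype.mem_piFinset] at hm
    funext j
    have := Finset.mem_Icc.1 (hm j)
    show m j - 1 + 1 = m j
    omega
  · intro m _
    funext j
    show m j + 1 - 1 = m j
    omega
  · intro m hm
    rw [Fintype.mem_piFinset] at hm
    congr 1
    funext j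
    have := Finset.mem_Icc.1 (hm j)
    show m j = m j - 1 + 1
    omega

theorem avg_Icc (M : Fin k → ℕ) (F : (Fin k → ℕ) → ℂ) :
    (∏ l, (M l : ℂ))⁻¹ * ∑ m ∈ Fintype.piFinset (fun l => Finset.Icc 1 (M l)), F m =
      bxc k M fun m => F (fun j => m j + 1) := by
  rw [sum_Icc]
  rfl

theorem avg_Icc_real (M : Fin k → ℕ) (F : (Fin k → ℕ) → ℝ) :
    (∏ l, (M l : ℝ))⁻¹ * ∑ m ∈ Fintype.piFinset (fun l => Finset.Icc 1 (M l)), F m =
      bx k M fun m => F (fun j => m j + 1) := by
  rw [sum_Icc]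
  rfl

end shift

variable {X : Type*} {mA mY mX : MeasurableSpace X} {μ : Measure X} [IsProbabilityMeasure μ]
variable {G : Type*} [Group G]
variable {Φ : G →* Equiv.Perm X} {ℓ : G → ℝ}

/-- the ordered product `b_1^{m_1} ⋯ b_k^{m_k}` -/
def pr {k : ℕ} (b : Fin k → G) (m : Fin k → ℕ) : G := (List.ofFn fun l => b l ^ m l).prod

theorem pr_orb : ∀ {k : ℕ} (b : Fin k → G) (m : Fin k → ℕ) (x : X),
    orb k (fun l => (Φ (b l) : X → X)) m x = Φ (pr b m) x
  | 0, b, m, x => by simp [orb, pr]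
  | k + 1, b, m, x => by
    have h1 := pr_orb (fun i : Fin k => b i.succ) (fun i : Fin k => m i.succ) x
    show (Φ (b 0) : X → X)^[m 0] (orb k (fun l : Fin k => (Φ (b l.succ) : X → X))
      (fun l : Fin k => m l.succ) x) = _
    rw [h1]
    unfold pr
    rw [List.ofFn_succ, List.prod_cons, map_mul, map_pow, Equiv.Perm.mul_apply,
      ← Equiv.Perm.coe_pow]

theorem pr_ell (hA : Filt mX mA Φ ℓ) : ∀ {k : ℕ} (b : Fin k → G) (m : Fin k → ℕ),
    ℓ (pr b m) = ∑ l, m l • ℓ (b l)
  | 0, b, m => by simp [pr, hA.one]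
  | k + 1, b, m => by
    have h1 := pr_ell hA (fun i : Fin k => b i.succ) (fun i : Fin k => m i.succ)
    rw [Fin.sum_univ_succ, ← h1]
    unfold pr
    rw [List.ofFn_succ, List.prod_cons, hA.hom, hA.pow, nsmul_eq_mul]

/-- averages of one function along ordered products of powers converge on the boxes `[0, N)` -/
theorem good_pr (hFl : Flow μ Φ) {k : ℕ} (c : G) (b : Fin k → G) :
    Good1 μ (fun m : Fin k → ℕ => (Φ (c * pr b m) : X → X)) := by
  intro H hH hb
  obtain ⟨C, hC⟩ := hb
  have h1 := dz k (fun l => (Φ (b l) : X → X)) (fun l => hFl _) (fun x => H (Φ c x))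
    (hH.comp (hFl c).measurable) C fun x => hC _
  filter_upwards [h1] with x hx
  obtain ⟨L, hL⟩ := hx
  refine ⟨L, hL.congr fun N => ?_⟩
  congr 1
  funext m
  rw [pr_orb, map_mul, Equiv.Perm.mul_apply]

/-- convergence of the averages over the boxes `[1, M]` of one function -/
def Single {k : ℕ} (μ : Measure X) (g : (Fin k → ℕ) → X → X) : Prop :=
  ∀ H : X → ℝ, Measurable H → (∃ C : ℝ, ∀ x, |H x| ≤ C) →
    ∀ᵐ x ∂μ, ∃ L : ℝ, Tendsto (fun M : Fin k → ℕ => (∏ l, (M l : ℝ))⁻¹ *
      ∑ m ∈ Fintype.piFinset (fun l => Finset.Icc 1 (M l)), H (g m x)) atTop (𝓝 L)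

theorem single_iff {k : ℕ} (g : (Fin k → ℕ) → X → X) :
    Single μ g ↔ Good1 μ (fun m => g (fun j => m j + 1)) := by
  unfold Single Good1
  simp only [avg_Icc_real]

theorem single_of_good {k : ℕ} {g : (Fin k → ℕ) → X → X} (h : Good1 μ g) : Single μ g := by
  rw [single_iff]
  intro H hH hb
  obtain ⟨C, hC⟩ := hb
  filter_upwards [h H hH ⟨C, hC⟩] with x hx
  obtain ⟨L, hL⟩ := hx
  refine ⟨L, ?_⟩
  have h1 := hL.sub (tendsto_shift (k := k) (φ := fun m => H (g m x)) (fun m => hC _))
  rw [sub_zero] at h1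
  refine h1.congr fun N => ?_
  ring

theorem single_pr (hFl : Flow μ Φ) {k : ℕ} (c : G) (b : Fin k → G) :
    Single μ (fun m : Fin k → ℕ => (Φ (c * pr b m) : X → X)) :=
  single_of_good (good_pr hFl c b)

variable {J : Type*} [DecidableEq J] [Fintype J]

/-- **The base is characteristic.** -/
theorem char_box {k : ℕ} (hk : 0 < k) (hK : KExt μ mA mY Φ ℓ) {q : (Fin k → ℕ) → J → G}
    {lam : J → ℝ} {θ : J → Fin k → ℝ} (hq : ∀ n v, ℓ (q n v) = pos lam θ n v)
    (h0 : ∀ v l, θ v l ≠ 0) (h3 : ∀ v w, v ≠ w → ∃ l, θ v l ≠ θ w l)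
    (hgood : ∀ v, Good1 μ fun n => (Φ (q n v) : X → X)) {f e : J → X → ℂ}
    (hf : ∀ j, @BM X mX (f j)) (he : ∀ j, @BM X mX (e j)) (heY : ∀ j, Measurable[mY] (e j))
    (hfe : ∀ j, ∀ B : Set X, MeasurableSet[mY] B → ∫ x in B, (f j x - e j x) ∂μ = 0) :
    ∀ᵐ x ∂μ, Tendsto (fun N => bxc k N fun n => (∏ j, f j (Φ (q n j) x) -
      ∏ j, e j (Φ (q n j) x))) atTop (𝓝 0) := by
  classical
  have key : ∀ t : Finset J, t ≠ ∅ → ∀ᵐ x ∂μ, Tendsto (fun N => bxc k N fun n =>
      (∏ j ∈ t, (f j (Φ (q n j) x) - e j (Φ (q n j) x))) *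
        ∏ j ∈ Finset.univ \ t, e j (Φ (q n j) x)) atTop (𝓝 0) := by
    intro t ht
    obtain ⟨j₀, hj₀⟩ := Finset.nonempty_of_ne_empty ht
    obtain ⟨s₀, hs₀⟩ : ∃ s₀ : G, 0 < ℓ s₀ := by
      let l₀ : Fin k := ⟨0, hk⟩
      have h5 : ℓ (q (Function.update 0 l₀ 1) j₀ * (q 0 j₀)⁻¹) = θ j₀ l₀ := by
        rw [hK.filt.hom, hK.filt.inv, hq, hq]
        have h6 := pos_update lam θ (0 : Fin k → ℕ) l₀ 1 j₀
        have h7 : Function.update (0 : Fin k → ℕ) l₀ 0 = 0 := by
          funext i
          by_cases hi : i = l₀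
          · subst hi
            simp
          · simp [Function.update_of_ne hi]
        rw [h7] at h6
        rw [h6, one_smul]
        ring
      rcases lt_or_gt_of_ne (h0 j₀ l₀) with h | h
      · exact ⟨(q (Function.update 0 l₀ 1) j₀ * (q 0 j₀)⁻¹)⁻¹, by
          rw [hK.filt.inv, h5]
          linarith⟩
      · exact ⟨q (Function.update 0 l₀ 1) j₀ * (q 0 j₀)⁻¹, by
          rw [h5]
          exact h⟩
    have hz := zero_complex (k := k) (S := t) (q := q) (lam := lam)
      (θ := θ) hk hK hs₀ hq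
      (fun v _ l h => absurd h (h0 v l)) (fun l => ⟨j₀, hj₀, h0 j₀ l⟩)
      (fun v _ w _ hvw => h3 v w hvw) hgood
      (F := fun j => if j ∈ t then (fun x => f j x - e j x) else e j) (fun v => by
        by_cases hv : v ∈ t
        · simp only [hv, if_true]
          obtain ⟨m₁, C₁, b₁⟩ := hf v
          obtain ⟨m₂, C₂, b₂⟩ := he v
          exact ⟨⟨m₁.sub m₂, C₁ + C₂, fun x => (norm_sub_le _ _).trans
            (add_le_add (b₁ x) (b₂ x))⟩, fun _ => hfe v, fun h => absurd hv h⟩
        · simp only [hv, if_false]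
          exact ⟨he v, fun h => absurd h hv, fun _ => heY v⟩)
    filter_upwards [hz] with x hx
    refine hx.congr fun N => ?_
    congr 1
    funext n
    rw [← Finset.prod_mul_prod_compl t, ← Finset.compl_eq_univ_sdiff]
    congr 1
    · refine Finset.prod_congr rfl fun j hj => ?_
      rw [if_pos hj]
    · refine Finset.prod_congr rfl fun j hj => ?_
      rw [if_neg (Finset.mem_compl.1 hj)]
  have hall : ∀ᵐ x ∂μ, ∀ t : Finset J, t ≠ ∅ → Tendsto (fun N => bxc k N fun n =>
      (∏ j ∈ t, (f j (Φ (q n j) x) - e j (Φ (q n j) x))) *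
        ∏ j ∈ Finset.univ \ t, e j (Φ (q n j) x)) atTop (𝓝 0) := by
    rw [ae_all_iff]
    intro t
    by_cases ht : t = ∅
    · exact Eventually.of_forall fun x h => absurd ht h
    · filter_upwards [key t ht] with x hx _
      exact hx
  filter_upwards [hall] with x hx
  have hsum := tendsto_finsetSum ((Finset.univ : Finset J).powerset.erase ∅) fun t ht =>
    hx t (Finset.ne_of_mem_erase ht)
  rw [Finset.sum_const_zero] at hsum
  refine hsum.congr fun N => ?_
  rw [← bxc_sum]
  congr 1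
  funext n
  have h1 := Finset.prod_add (fun j => f j (Φ (q n j) x) - e j (Φ (q n j) x))
    (fun j => e j (Φ (q n j) x)) (Finset.univ : Finset J)
  have h2 : ∏ j, (f j (Φ (q n j) x) - e j (Φ (q n j) x) + e j (Φ (q n j) x)) =
      ∏ j, f j (Φ (q n j) x) := Finset.prod_congr rfl fun j _ => by ring
  rw [h2, ← Finset.add_sum_erase _ _ (Finset.empty_mem_powerset _)] at h1
  rw [h1, Finset.prod_empty, one_mul, Finset.sdiff_empty]
  ring

end Pool.Agent.U547.KB
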