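import Pool.Agent.U547.KB.Box

/-!
# Functions which depend on some of the variables only
-/

set_option autoImplicit false
set_option linter.unusedSectionVars false

open MeasureTheory Filter Topology
open scoped ENNReal

noncomputable section

namespace Pool.Agent.U547.KB

open Pool.Agent.TH784.KE
open Pool.Agent.W761.Box (bx bxc BM Good1 bxc_add bxc_sub bxc_mul)

variable {k : ℕ}

/-- the numbering of the variables in `D` -/
def en (D : Finset (Fin k)) : Fin D.card ≃ D := D.equivFin.symm

/-- extension by `c` -/
def ext (D : Finset (Fin k)) (c : ℕ) (m : Fin D.card → ℕ) : Fin k → ℕ :=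
  fun l => if h : l ∈ D then m ((en D).symm ⟨l, h⟩) else c

theorem ext_en (D : Finset (Fin k)) (c : ℕ) (m : Fin D.card → ℕ) (i : Fin D.card) :
    ext D c m (en D i) = m i := by
  unfold ext
  rw [dif_pos (en D i).2]
  congr 1
  exact (en D).symm_apply_apply i

theorem card_fiber (D : Finset (Fin k)) (N : Fin k → ℕ) {m' : Fin D.card → ℕ}
    (hm' : m' ∈ Fintype.piFinset (fun i => Finset.range (N (en D i)))) :
    ((Fintype.piFinset (fun l => Finset.range (N l))).filter
      (fun m => (fun i => m (en D i)) = m')).card = ∏ l ∈ Finset.univ \ D, N l := by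
  classical
  have h1 : (Fintype.piFinset (fun l => Finset.range (N l))).filter
      (fun m => (fun i => m (en D i)) = m') = Fintype.piFinset (fun l =>
        if l ∈ D then {ext D 0 m' l} else Finset.range (N l)) := by
    ext m
    rw [Finset.mem_filter, Fintype.mem_piFinset, Fintype.mem_piFinset]
    constructor
    · rintro ⟨h2, h3⟩ l
      by_cases hl : l ∈ D
      · rw [if_pos hl, Finset.mem_singleton]
        have h4 := congrFun h3 ((en D).symm ⟨l, hl⟩)
        rw [Equiv.apply_symm_apply] at h4
        unfold ext
        rw [dif_pos hl]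
        exact h4
      · rw [if_neg hl]
        exact h2 l
    · intro h2
      constructor
      · intro l
        have h3 := h2 l
        by_cases hl : l ∈ D
        · rw [if_pos hl, Finset.mem_singleton] at h3
          rw [h3]
          have h4 := Fintype.mem_piFinset.1 hm' ((en D).symm ⟨l, hl⟩)
          rw [Equiv.apply_symm_apply] at h4
          unfold ext
          rw [dif_pos hl]
          exact h4
        · rw [if_neg hl] at h3
          exact h3
      · funext i
        have h3 := h2 (en D i)
        rw [if_pos (en D i).2, Finset.mem_singleton, ext_en] at h3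
        exact h3
  rw [h1, Fintype.card_piFinset, ← Finset.prod_sdiff (Finset.subset_univ D)]
  have h5 : ∏ l ∈ D, (if l ∈ D then ({ext D 0 m' l} : Finset ℕ)
      else Finset.range (N l)).card = 1 := by
    refine Finset.prod_eq_one fun l hl => ?_
    rw [if_pos hl, Finset.card_singleton]
  rw [h5, mul_one]
  refine Finset.prod_congr rfl fun l hl => ?_
  rw [if_neg (Finset.mem_sdiff.1 hl).2, Finset.card_range]

theorem prod_en (D : Finset (Fin k)) (N : Fin k → ℂ) : ∏ i, N (en D i) = ∏ l ∈ D, N l := by
  rw [Equiv.prod_comp (en D) (fun l : D => N l)]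
  exact Finset.prod_coe_sort D N

/-- the average of a function of the variables in `D` -/
theorem bxc_dep (D : Finset (Fin k)) {N : Fin k → ℕ} (hN : ∀ l, 1 ≤ N l)
    (ψ : (Fin D.card → ℕ) → ℂ) :
    bxc k N (fun m => ψ fun i => m (en D i)) = bxc D.card (fun i => N (en D i)) ψ := by
  classical
  unfold Pool.Agent.W761.Box.bxc
  have h1 : ∑ m ∈ Fintype.piFinset (fun l => Finset.range (N l)), ψ (fun i => m (en D i)) =
      ∑ m' ∈ Fintype.piFinset (fun i => Finset.range (N (en D i))),
        ((∏ l ∈ Finset.univ \ D, N l : ℕ) : ℂ) * ψ m' := by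
    rw [← Finset.sum_fiberwise_of_maps_to
      (t := Fintype.piFinset (fun i => Finset.range (N (en D i))))
      (g := fun m : Fin k → ℕ => fun i => m (en D i))
      (fun m hm => by
        rw [Fintype.mem_piFinset] at hm ⊢
        exact fun i => hm _)]
    refine Finset.sum_congr rfl fun m' hm' => ?_
    rw [← card_fiber D N hm', ← nsmul_eq_mul, ← Finset.sum_const]
    refine Finset.sum_congr rfl fun m hm => ?_
    rw [(Finset.mem_filter.1 hm).2]
  rw [h1, ← Finset.mul_sum, prod_en D (fun l => (N l : ℂ)), ← mul_assoc]
  congr 1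
  have h2 : ∏ l, (N l : ℂ) = (∏ l ∈ Finset.univ \ D, (N l : ℂ)) * ∏ l ∈ D, (N l : ℂ) :=
    (Finset.prod_sdiff (Finset.subset_univ D)).symm
  have h3 : (∏ l ∈ Finset.univ \ D, (N l : ℂ)) ≠ 0 := Finset.prod_ne_zero_iff.2 fun l _ => by
    have := hN l
    exact_mod_cast (by omega : N l ≠ 0)
  rw [h2]
  push_cast
  rw [mul_inv, mul_comm, ← mul_assoc, mul_inv_cancel₀ h3, one_mul]

end Pool.Agent.U547.KB
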