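import Pool.Agent.U547.KB.Act

/-!
# Kolmogorov extensions and sequences with eventually monotone positions
-/

set_option autoImplicit false
set_option linter.unusedSectionVars false

open MeasureTheory Filter Topology
open scoped ENNReal

noncomputable section

namespace Pool.Agent.U547.KB

open Pool.Agent.TH784.KE

variable {X : Type*} {mA mY mX : MeasurableSpace X} {μ : Measure X} [IsProbabilityMeasure μ]
variable {G : Type*} [Group G]
variable {Φ : G →* Equiv.Perm X} {ℓ : G → ℝ}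
variable {J : Type*} [DecidableEq J]

/-- monotone from `n₁` on, with increments at least `δ` in absolute value -/
def Mono (p : ℕ → ℝ) (δ : ℝ) (n₁ : ℕ) : Prop :=
  (∀ n, n₁ ≤ n → p n + δ ≤ p (n + 1)) ∨ (∀ n, n₁ ≤ n → p (n + 1) + δ ≤ p n)

theorem up_gap {p : ℕ → ℝ} {δ : ℝ} {n₁ : ℕ} (h : ∀ n, n₁ ≤ n → p n + δ ≤ p (n + 1)) {j : ℕ}
    (hj : n₁ ≤ j) (i : ℕ) : p j + i * δ ≤ p (j + i) := by
  induction i with
  | zero => simp
  | succ i ih =>
    have := h (j + i) (by omega)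
    rw [← add_assoc]
    push_cast
    linarith

theorem down_gap {p : ℕ → ℝ} {δ : ℝ} {n₁ : ℕ} (h : ∀ n, n₁ ≤ n → p (n + 1) + δ ≤ p n) {j : ℕ}
    (hj : n₁ ≤ j) (i : ℕ) : p (j + i) + i * δ ≤ p j := by
  induction i with
  | zero => simp
  | succ i ih =>
    have := h (j + i) (by omega)
    rw [← add_assoc]
    push_cast
    linarith

theorem orth_gen (hFl : Flow μ Φ) (hA : Filt mX mA Φ ℓ) (hY : Base mY mA Φ) {V : Finset J}
    {v : J} (hv : v ∈ V) {p : ℕ → J → G}
    {F H : J → X → ℝ} {W : ℕ → X → ℝ} {r s : G} {R : ℝ}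
    (hsr : ℓ s ≤ ℓ r) (hR : ℓ r - ℓ s ≤ R) (hR0 : 0 ≤ R)
    (hF : ∀ w ∈ V, Measurable[cm mA Φ r] (F w) ∧ ∀ x, |F w x| ≤ 1)
    (hH : CE μ (cm mA Φ s) (F v) (H v)) (hW : ∀ m, Measurable[mY] (W m) ∧ ∀ x, |W m x| ≤ 1)
    (rk : ℕ → ℤ) (M : Finset ℕ)
    (hrk : ∀ i ∈ M, ∀ j ∈ M, rk j < rk i → ℓ (p j v) + R ≤ ℓ (p i v)) :
    Orth μ rk M fun m x => DD V Φ ℓ R F H (W m) (p m) v x / 2 := by
  classical
  intro i hi M' hM' hlt c
  by_cases htop : top V ℓ R (p i) v
  swap
  · have e : ∀ x, DD V Φ ℓ R F H (W i) (p i) v x = 0 := by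
      intro x
      unfold DD
      rw [if_neg htop]
    simp only [e, zero_div, zero_mul, integral_zero]
  set t : G := s * p i v with ht
  have hpast : ∀ j ∈ M', Measurable[cm mA Φ t]
      (DD V Φ ℓ R F H (W j) (p j) v) := by
    intro j hj
    refine DD_past hA hY hv hsr hR0 (fun w hw => (hF w hw).1) hH.1 (hW j).1 ?_
    have h1 := hrk i hi j (hM' hj) (hlt j hj)
    rw [ht, hA.hom]
    linarith
  have hexp : Measurable[cm mA Φ t] fun x => Real.exp (c * ∑ j ∈ M',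
      DD V Φ ℓ R F H (W j) (p j) v x / 2) := by
    have h1 : Measurable[cm mA Φ t] fun x => ∑ j ∈ M',
        DD V Φ ℓ R F H (W j) (p j) v x / 2 :=
      Finset.measurable_fun_sum _ fun j hj => (hpast j hj).div_const 2
    exact (h1.const_mul c).exp
  have hprod : Measurable[cm mA Φ t] fun x => ∏ w ∈ V.erase v, F w (Φ (p i w) x) := by
    refine Finset.measurable_fun_prod _ fun w hw => ?_
    refine (meas_shift _ (hF w (Finset.mem_of_mem_erase hw)).1).mono
      (cm_mono hA ?_) le_rfl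
    have h9 : ℓ (p i w) + R ≤ ℓ (p i v) :=
      htop w (Finset.mem_of_mem_erase hw) (Finset.ne_of_mem_erase hw)
    rw [ht, hA.hom, hA.hom]
    linarith
  have hWm : Measurable[cm mA Φ t] (W i) := (hW i).1.mono (base_le hY t) le_rfl
  have hfm : Measurable (F v) := (hF v hv).1.mono (cm_le hFl hA r) le_rfl
  have hb : ∀ x, |((∏ w ∈ V.erase v, F w (Φ (p i w) x)) * W i x) *
      Real.exp (c * ∑ j ∈ M', DD V Φ ℓ R F H (W j) (p j) v x / 2)| ≤
      1 * Real.exp (|c| * M'.card) := by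
    intro x
    rw [abs_mul, abs_mul, abs_of_pos (Real.exp_pos _)]
    have h2 := prod_abs_le (Φ := Φ) (V := V.erase v) (F := F)
      (fun w hw => (hF w (Finset.mem_of_mem_erase hw)).2) (p i) x
    have h3 := (hW i).2 x
    have h4 : |∏ w ∈ V.erase v, F w (Φ (p i w) x)| * |W i x| ≤ 1 := by
      calc _ ≤ (1 : ℝ) * 1 := mul_le_mul h2 h3 (abs_nonneg _) zero_le_one
        _ = 1 := one_mul 1
    refine mul_le_mul h4 ?_ (Real.exp_pos _).le zero_le_one
    apply Real.exp_le_exp.2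
    refine (le_abs_self _).trans ?_
    rw [abs_mul]
    refine mul_le_mul_of_nonneg_left ?_ (abs_nonneg _)
    refine (Finset.abs_sum_le_sum_abs _ _).trans ?_
    refine (Finset.sum_le_sum (g := fun _ => (1 : ℝ)) fun j hj => ?_).trans (by simp)
    rw [abs_div, abs_two]
    have := DD_abs (Φ := Φ) (ℓ := ℓ) (R := R) hv (fun w hw => (hF w hw).2) hH.2.1 (hW j).2
      (p j) x
    linarith
  have key := orth_shift hFl hA hfm hH (p i v) ((hprod.mul hWm).mul hexp) hb
  have e : ∀ x, DD V Φ ℓ R F H (W i) (p i) v x / 2 *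
      Real.exp (c * ∑ j ∈ M', DD V Φ ℓ R F H (W j) (p j) v x / 2) =
      2⁻¹ * ((F v (Φ (p i v) x) - H v (Φ (p i v) x)) *
        ((((∏ w ∈ V.erase v, F w (Φ (p i w) x)) * W i x)) *
        Real.exp (c * ∑ j ∈ M', DD V Φ ℓ R F H (W j) (p j) v x / 2))) := by
    intro x
    conv_lhs =>
      enter [1, 1]
      unfold DD
    rw [if_pos htop]
    ring
  simp only [e]
  rw [integral_const_mul]
  refine mul_eq_zero_of_right _ ?_
  exact key

theorem seq_bound (hFl : Flow μ Φ) (hA : Filt mX mA Φ ℓ) (hY : Base mY mA Φ) {V : Finset J}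
    {v : J} (hv : v ∈ V) {p : ℕ → J → G} {δ : ℝ} (hδ : 0 < δ) {n₁ : ℕ}
    (hp : Mono (fun n => ℓ (p n v)) δ n₁)
    {F H : J → X → ℝ} {W : ℕ → X → ℝ} {r s : G} {R : ℝ}
    (hsr : ℓ s ≤ ℓ r) (hR : ℓ r - ℓ s ≤ R) (hR0 : 0 ≤ R)
    (hF : ∀ w ∈ V, Measurable[cm mA Φ r] (F w) ∧ ∀ x, |F w x| ≤ 1)
    (hH : CE μ (cm mA Φ s) (F v) (H v)) (hW : ∀ m, Measurable[mY] (W m) ∧ ∀ x, |W m x| ≤ 1)
    {L : ℕ} (hL : 0 < L) (hβ : R ≤ L * δ) {N : ℕ} (hN : 0 < N)
    {t : ℝ} (ht : 0 ≤ t) :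
    μ.real {x | t ≤ |∑ m ∈ (Finset.range N).filter (fun m => n₁ ≤ m),
      DD V Φ ℓ R F H (W m) (p m) v x|} ≤
      L * (2 * Real.exp (-((t / (2 * L)) ^ 2 / (2 * N)))) := by
  classical
  have hL' : (0 : ℝ) < L := by exact_mod_cast hL
  set B : Finset ℕ := (Finset.range N).filter (fun m => n₁ ≤ m) with hB
  have hBN : B.card ≤ N := (Finset.card_filter_le _ _).trans (Finset.card_range N).le
  have hmeas : ∀ m, Measurable (DD V Φ ℓ R F H (W m) (p m) v) := fun m =>
    (DD_past hA hY hv hsr hR0 (fun w hw => (hF w hw).1) hH.1 (hW m).1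
      (t := r * p m v) (hA.hom _ _).ge).mono (cm_le hFl hA _) le_rfl
  have key : ∀ ρ ∈ Finset.range L, μ.real {x | t / (2 * L) ≤
      |∑ m ∈ B.filter (fun m => m % L = ρ),
        DD V Φ ℓ R F H (W m) (p m) v x / 2|} ≤
      2 * Real.exp (-((t / (2 * L)) ^ 2 / (2 * N))) := by
    intro ρ _
    have hcard : (B.filter (fun m => m % L = ρ)).card ≤ N :=
      (Finset.card_filter_le _ _).trans hBN
    have hM : ∀ m ∈ B.filter (fun m => m % L = ρ), m % L = ρ ∧ n₁ ≤ m :=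
      fun m hm => ⟨(Finset.mem_filter.1 hm).2,
        (Finset.mem_filter.1 (Finset.mem_filter.1 hm).1).2⟩
    have hb : ∀ m ∈ B.filter (fun m => m % L = ρ), ∀ x,
        |DD V Φ ℓ R F H (W m) (p m) v x / 2| ≤ 1 := by
      intro m _ x
      rw [abs_div, abs_two]
      have := DD_abs (Φ := Φ) (ℓ := ℓ) (R := R) hv (fun w hw => (hF w hw).2) hH.2.1 (hW m).2
        (p m) x
      linarith
    have hmm : ∀ m ∈ B.filter (fun m => m % L = ρ), Measurable fun x =>
        DD V Φ ℓ R F H (W m) (p m) v x / 2 :=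
      fun m _ => (hmeas m).div_const 2
    have hmod : ∀ i j : ℕ, j < i → i % L = j % L → ∃ e : ℕ, i = j + e ∧ R ≤ e * δ := by
      intro i j hij h
      have h1 : L ∣ i - j := (Nat.modEq_iff_dvd' hij.le).1 h.symm
      have h2 := Nat.le_of_dvd (Nat.sub_pos_of_lt hij) h1
      refine ⟨i - j, by omega, hβ.trans ?_⟩
      refine mul_le_mul_of_nonneg_right ?_ hδ.le
      exact_mod_cast h2
    rcases hp with hup | hdown
    · have hinj : Function.Injective fun m : ℕ => (m : ℤ) := Nat.cast_injective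
      refine azuma hinj _ hmm hb ?_ (div_nonneg ht (by positivity)) hN hcard
      refine orth_gen hFl hA hY hv hsr hR hR0 hF hH hW _ _ ?_
      intro i hi j hj hij
      have hij' : j < i := by exact_mod_cast hij
      obtain ⟨e, he, heR⟩ := hmod i j hij' ((hM i hi).1.trans (hM j hj).1.symm)
      have h1 := up_gap (p := fun n => ℓ (p n v)) hup (hM j hj).2 e
      rw [he]
      have h2 : (fun n => ℓ (p n v)) j + e * δ ≤ (fun n => ℓ (p n v)) (j + e) := h1
      dsimp only at h2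
      linarith
    · have hinj : Function.Injective fun m : ℕ => -(m : ℤ) := fun a b h => by
        have : (a : ℤ) = b := neg_injective h
        exact_mod_cast this
      refine azuma hinj _ hmm hb ?_ (div_nonneg ht (by positivity)) hN hcard
      refine orth_gen hFl hA hY hv hsr hR hR0 hF hH hW _ _ ?_
      intro i hi j hj hij
      have hij' : i < j := by
        have : (i : ℤ) < j := by linarith
        exact_mod_cast this
      obtain ⟨e, he, heR⟩ := hmod j i hij' ((hM j hj).1.trans (hM i hi).1.symm)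
      have h1 := down_gap (p := fun n => ℓ (p n v)) hdown (hM i hi).2 e
      rw [he]
      have h2 : (fun n => ℓ (p n v)) (i + e) + e * δ ≤ (fun n => ℓ (p n v)) i := h1
      dsimp only at h2
      linarith
  have hsub : {x | t ≤ |∑ m ∈ B,
      DD V Φ ℓ R F H (W m) (p m) v x|} ⊆
      ⋃ ρ ∈ Finset.range L, {x | t / (2 * L) ≤
      |∑ m ∈ B.filter (fun m => m % L = ρ),
        DD V Φ ℓ R F H (W m) (p m) v x / 2|} := by
    intro x hx
    by_contra hcon
    simp only [Set.mem_iUnion, Set.mem_ofPred_eq, not_exists, not_le] at hcon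
    have h1 : ∑ m ∈ B, DD V Φ ℓ R F H (W m) (p m) v x =
        2 * ∑ ρ ∈ Finset.range L, ∑ m ∈ B.filter (fun m => m % L = ρ),
          DD V Φ ℓ R F H (W m) (p m) v x / 2 := by
      rw [Finset.sum_fiberwise_of_maps_to (s := B) (t := Finset.range L)
        (g := fun m => m % L) (fun m _ => Finset.mem_range.2 (Nat.mod_lt _ hL)), Finset.mul_sum]
      refine Finset.sum_congr rfl fun m _ => ?_
      ring
    have h2 : |∑ m ∈ B, DD V Φ ℓ R F H (W m) (p m) v x| < t := by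
      rw [h1, abs_mul, abs_two]
      have h3 : |∑ ρ ∈ Finset.range L, ∑ m ∈ B.filter (fun m => m % L = ρ),
          DD V Φ ℓ R F H (W m) (p m) v x / 2| < L * (t / (2 * L)) := by
        refine (Finset.abs_sum_le_sum_abs _ _).trans_lt ?_
        refine (Finset.sum_lt_sum_of_nonempty ⟨0, Finset.mem_range.2 hL⟩
          fun ρ hρ => hcon ρ hρ).trans_le ?_
        rw [Finset.sum_const, Finset.card_range, nsmul_eq_mul]
      calc 2 * _ < 2 * (L * (t / (2 * L))) := by linarith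
        _ = t := by field_simp
    exact absurd hx (not_le.2 h2)
  refine (measureReal_mono hsub (measure_ne_top _ _)).trans
    ((measureReal_biUnion_finset_le _ _).trans ?_)
  refine (Finset.sum_le_sum key).trans ?_
  rw [Finset.sum_const, Finset.card_range, nsmul_eq_mul]

/-- almost everywhere: the averages of the successively orthogonal functions tend to zero -/
theorem seq_ae (hFl : Flow μ Φ) (hA : Filt mX mA Φ ℓ) (hY : Base mY mA Φ) {V : Finset J}
    {v : J} (hv : v ∈ V) {p : ℕ → J → G} {δ : ℝ} (hδ : 0 < δ) {n₁ : ℕ}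
    (hp : Mono (fun n => ℓ (p n v)) δ n₁)
    {F H : J → X → ℝ} {W : ℕ → X → ℝ} {r s : G} {R : ℝ}
    (hsr : ℓ s ≤ ℓ r) (hR : ℓ r - ℓ s ≤ R) (hR0 : 0 ≤ R)
    (hF : ∀ w ∈ V, Measurable[cm mA Φ r] (F w) ∧ ∀ x, |F w x| ≤ 1)
    (hH : CE μ (cm mA Φ s) (F v) (H v)) (hW : ∀ m, Measurable[mY] (W m) ∧ ∀ x, |W m x| ≤ 1)
    {η : ℝ} (hη : 0 < η) :
    ∀ᵐ x ∂μ, ∀ᶠ N : ℕ in atTop,
      |∑ m ∈ Finset.range N, DD V Φ ℓ R F H (W m) (p m) v x| ≤ η * N := by
  classical
  obtain ⟨L, hL, hβ⟩ : ∃ L : ℕ, 0 < L ∧ R ≤ L * δ := by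
    have h4 : Tendsto (fun L : ℕ => (L : ℝ) * δ) atTop atTop :=
      tendsto_natCast_atTop_atTop.atTop_mul_const hδ
    obtain ⟨L, hL1, hL2⟩ := ((h4.eventually_ge_atTop R).and (eventually_gt_atTop 0)).exists
    exact ⟨L, hL2, hL1⟩
  set η' : ℝ := η / 2 with hη'
  have hη'0 : 0 < η' := by positivity
  set κ : ℝ := (η' / (2 * L)) ^ 2 / 2 with hκ
  have hL' : (0 : ℝ) < L := by exact_mod_cast hL
  have hκ0 : 0 < κ := by positivity
  let bad : ℕ → Set X := fun M => {x | η' * M ≤ |∑ m ∈ (Finset.range M).filter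
    (fun m => n₁ ≤ m), DD V Φ ℓ R F H (W m) (p m) v x|}
  have hbad : ∀ M : ℕ, 0 < M → μ.real (bad M) ≤ Real.exp (-κ) ^ M * (L * 2) := by
    intro M hM
    have hM' : (0 : ℝ) < M := by exact_mod_cast hM
    have h2 := seq_bound hFl hA hY hv hδ hp hsr hR hR0 hF hH hW hL hβ hM (t := η' * M)
      (by positivity)
    refine h2.trans (le_of_eq ?_)
    rw [← Real.exp_nat_mul]
    have h3 : (η' * (M : ℝ) / (2 * L)) ^ 2 / (2 * M) = M * κ := by
      rw [hκ]
      field_simp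
    rw [h3, mul_neg]
    ring
  have hsummable : Summable fun M : ℕ => Real.exp (-κ) ^ M * (L * 2) := by
    refine Summable.mul_right _ ?_
    refine summable_geometric_of_lt_one (Real.exp_pos _).le ?_
    rw [Real.exp_lt_one_iff]
    linarith
  have hfin : ∑' M, μ (bad (M + 1)) ≠ ⊤ := by
    have h3 : ∀ M, μ (bad (M + 1)) ≤ ENNReal.ofReal (Real.exp (-κ) ^ (M + 1) * (L * 2)) := by
      intro M
      have h4 := hbad (M + 1) M.succ_pos
      rw [measureReal_def] at h4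
      rw [← ENNReal.ofReal_toReal (measure_ne_top μ (bad (M + 1)))]
      exact ENNReal.ofReal_le_ofReal h4
    refine ne_top_of_le_ne_top ?_ (ENNReal.tsum_le_tsum h3)
    exact ((summable_nat_add_iff 1).2 hsummable).tsum_ofReal_ne_top
  filter_upwards [ae_eventually_notMem hfin] with x hx
  obtain ⟨M₀, hM₀⟩ := eventually_atTop.1 hx
  obtain ⟨M₁, hM₁⟩ : ∃ M₁ : ℕ, (2 * n₁ : ℝ) ≤ η' * M₁ := by
    obtain ⟨M₁, h⟩ := exists_nat_ge ((2 * n₁ : ℝ) / η')
    exact ⟨M₁, by rwa [div_le_iff₀' hη'0] at h⟩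
  refine eventually_atTop.2 ⟨max (M₀ + 1) M₁, fun M' hM' => ?_⟩
  have hM'0 : M₀ + 1 ≤ M' := (le_max_left _ _).trans hM'
  have hM'1 : M₁ ≤ M' := (le_max_right _ _).trans hM'
  obtain ⟨M, rfl⟩ : ∃ M, M' = M + 1 := ⟨M' - 1, by omega⟩
  have hM := hM₀ M (by omega)
  have h5 : |∑ m ∈ (Finset.range (M + 1)).filter (fun m => n₁ ≤ m),
      DD V Φ ℓ R F H (W m) (p m) v x| ≤ η' * ((M + 1 : ℕ) : ℝ) := by
    by_contra hcon
    rw [not_le] at hcon
    exact hM hcon.le
  have h6 : |∑ m ∈ (Finset.range (M + 1)).filter (fun m => ¬ n₁ ≤ m),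
      DD V Φ ℓ R F H (W m) (p m) v x| ≤ 2 * n₁ := by
    refine (Finset.abs_sum_le_sum_abs _ _).trans ?_
    refine (Finset.sum_le_sum (g := fun _ => (2 : ℝ)) fun m _ => ?_).trans ?_
    · exact DD_abs (Φ := Φ) (ℓ := ℓ) (R := R) hv (fun w hw => (hF w hw).2) hH.2.1 (hW m).2
        (p m) x
    · rw [Finset.sum_const, nsmul_eq_mul, mul_comm]
      refine mul_le_mul_of_nonneg_left ?_ (by norm_num)
      have h7 : (Finset.range (M + 1)).filter (fun m => ¬ n₁ ≤ m) ⊆ Finset.range n₁ := by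
        intro m hm
        have := (Finset.mem_filter.1 hm).2
        exact Finset.mem_range.2 (by omega)
      have h8 := Finset.card_le_card h7
      rw [Finset.card_range] at h8
      exact_mod_cast h8
  have h9 : η' * (M₁ : ℝ) ≤ η' * ((M + 1 : ℕ) : ℝ) := by
    refine mul_le_mul_of_nonneg_left ?_ hη'0.le
    exact_mod_cast hM'1
  rw [← Finset.sum_filter_add_sum_filter_not (Finset.range (M + 1)) (fun m => n₁ ≤ m)]
  refine (abs_add_le _ _).trans ?_
  have h10 : η * ((M + 1 : ℕ) : ℝ) = η' * ((M + 1 : ℕ) : ℝ) + η' * ((M + 1 : ℕ) : ℝ) := by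
    rw [hη']
    ring
  rw [h10]
  linarith

end Pool.Agent.U547.KB
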