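import Pool.Agent.U547.KB.Seq

/-!
# Convergence to zero along sequences
-/

set_option autoImplicit false
set_option linter.unusedSectionVars false

open MeasureTheory Filter Topology
open scoped ENNReal

noncomputable section

namespace Pool.Agent.U547.KB

open Pool.Agent.TH784.KE
open Pool.Agent.W761.Box (bx bxc BM Good1 bx_add bx_sum bx_succ int_lim_le')

theorem bx_one (N : Fin 1 → ℕ) (φ : (Fin 1 → ℕ) → ℝ) :
    bx 1 N φ = (N 0 : ℝ)⁻¹ * ∑ t ∈ Finset.range (N 0), φ (fun _ => t) := by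
  rw [bx_succ]
  have h0 : ∀ (f : (Fin 0 → ℕ) → ℝ) (M : Fin 0 → ℕ), bx 0 M f = f Fin.elim0 := by
    intro f M
    have h1 : ∀ m : Fin 0 → ℕ, m = Fin.elim0 := fun m => Subsingleton.elim _ _
    unfold Pool.Agent.W761.Box.bx
    rw [Finset.sum_congr rfl fun m _ => congrArg f (h1 m), Finset.sum_const,
      Fintype.card_piFinset]
    simp
  rw [h0]
  congr 1
  refine Finset.sum_congr rfl fun t _ => ?_
  congr 1
  funext i
  exact Fin.cases rfl (fun i => i.elim0) i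

variable {X : Type*} {mA mY mX : MeasurableSpace X} {μ : Measure X} [IsProbabilityMeasure μ]
variable {G : Type*} [Group G]
variable {Φ : G →* Equiv.Perm X} {ℓ : G → ℝ}
variable {J : Type*} [DecidableEq J] [Fintype J]

/-- the averages of nonnegative functions are eventually bounded by a function with small integral -/
def Maj {k : ℕ} (μ : Measure X) (g : (Fin k → ℕ) → X → X) : Prop :=
  ∀ K : X → ℝ, Measurable K → (∃ C : ℝ, ∀ x, |K x| ≤ C) → (∀ x, 0 ≤ K x) →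
    ∃ E : X → ℝ, 0 ≤ᵐ[μ] E ∧ Integrable E μ ∧ ∫ x, E x ∂μ ≤ 3 * ∫ x, K x ∂μ ∧
      ∀ᵐ x ∂μ, ∀ c : ℝ, E x < c → ∀ᶠ N in atTop, bx k N (fun m => K (g m x)) < c

/-- positions which are eventually monotone and move apart from each other -/
structure Good (S : Finset J) (p : ℕ → J → ℝ) : Prop where
  mono : ∀ v ∈ S, ∃ δ : ℝ, 0 < δ ∧ ∃ n₁ : ℕ, Mono (fun n => p n v) δ n₁
  sep : ∀ v ∈ S, ∀ w ∈ S, v ≠ w → Tendsto (fun n => |p n v - p n w|) atTop atTop

theorem seq_bound_ae (hFl : Flow μ Φ) (hA : Filt mX mA Φ ℓ) (hY : Base mY mA Φ)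
    {S : Finset J} (hS : S.Nonempty) {q : (Fin 1 → ℕ) → J → G}
    (hq : Good S fun n v => ℓ (q (fun _ => n) v))
    {F H : J → X → ℝ} {r s : G} {R : ℝ} (hsr : ℓ s ≤ ℓ r) (hR : ℓ r - ℓ s ≤ R) (hR0 : 0 < R)
    (hF : ∀ v ∈ S, Measurable[cm mA Φ r] (F v)) (hF1 : ∀ v x, |F v x| ≤ 1)
    (hFY : ∀ v ∉ S, Measurable[mY] (F v)) (hH : ∀ v ∈ S, CE μ (cm mA Φ s) (F v) (H v))
    {η : ℝ} (hη : 0 < η) :
    ∀ᵐ x ∂μ, ∀ᶠ N : Fin 1 → ℕ in atTop,
      |bx 1 N fun n => ∏ v, F v (Φ (q n v) x)| ≤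
        η + bx 1 N fun n => errb Φ ℓ R H S (q n) x := by
  classical
  let W : ℕ → X → ℝ := fun n x => ∏ v ∈ Sᶜ, F v (Φ (q (fun _ => n) v) x)
  have hW : ∀ n, Measurable[mY] (W n) ∧ ∀ x, |W n x| ≤ 1 := by
    intro n
    refine ⟨Finset.measurable_fun_prod _ fun v hv => ?_, fun x =>
      prod_abs_le (fun w _ => hF1 w) _ x⟩
    exact (hFY v (Finset.mem_compl.1 hv)).comp (hY.inv _)
  set η' : ℝ := η / (S.card + 1) with hη'
  have hη'0 : 0 < η' := by positivity
  have hlines : ∀ᵐ x ∂μ, ∀ v ∈ S, ∀ᶠ N : ℕ in atTop,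
      |∑ t ∈ Finset.range N, DD S Φ ℓ R F H (W t) (q (fun _ => t)) v x| ≤ η' * N := by
    refine (ae_ball_iff S.countable_toSet).2 fun v hv => ?_
    obtain ⟨δ, hδ, n₁, hm⟩ := hq.mono v hv
    exact seq_ae hFl hA hY hv (p := fun n v => q (fun _ => n) v) hδ hm hsr hR hR0.le
      (fun w hw => ⟨hF w hw, hF1 w⟩) (hH v hv) hW hη'0
  filter_upwards [hlines] with x hx
  have hx' : ∀ᶠ N : ℕ in atTop, ∀ v ∈ S,
      |∑ t ∈ Finset.range N, DD S Φ ℓ R F H (W t) (q (fun _ => t)) v x| ≤ η' * N :=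
    (Finset.eventually_all S).2 hx
  obtain ⟨M₀, hM₀⟩ := eventually_atTop.1 hx'
  refine eventually_atTop.2 ⟨fun _ => max M₀ 1, fun N hN => ?_⟩
  have hN1 : 1 ≤ N 0 := (le_max_right _ _).trans (hN 0)
  have hN0 : M₀ ≤ N 0 := (le_max_left _ _).trans (hN 0)
  have hNpos : (0 : ℝ) < N 0 := by exact_mod_cast hN1
  rw [bx_one, bx_one]
  have hfac : ∀ n : ℕ, ∏ v, F v (Φ (q (fun _ => n) v) x) =
      (∏ v ∈ S, F v (Φ (q (fun _ => n) v) x)) * W n x := by
    intro n
    show _ = _ * ∏ v ∈ Sᶜ, F v (Φ (q (fun _ => n) v) x)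
    rw [← Finset.prod_mul_prod_compl S]
  have e2 : |∑ t ∈ Finset.range (N 0), ∏ v, F v (Φ (q (fun _ => t) v) x)| ≤
      η * N 0 + ∑ t ∈ Finset.range (N 0), errb Φ ℓ R H S (q (fun _ => t)) x := by
    have e3 : ∑ t ∈ Finset.range (N 0), ∏ v, F v (Φ (q (fun _ => t) v) x) =
        ∑ v ∈ S, ∑ t ∈ Finset.range (N 0), DD S Φ ℓ R F H (W t) (q (fun _ => t)) v x +
        ∑ t ∈ Finset.range (N 0), ((∏ v ∈ S, F v (Φ (q (fun _ => t) v) x)) * W t x -
          ∑ v ∈ S, DD S Φ ℓ R F H (W t) (q (fun _ => t)) v x) := by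
      rw [Finset.sum_comm, ← Finset.sum_add_distrib]
      refine Finset.sum_congr rfl fun t _ => ?_
      rw [hfac]
      ring
    rw [e3]
    refine (abs_add_le _ _).trans (add_le_add ?_ ?_)
    · refine (Finset.abs_sum_le_sum_abs _ _).trans ?_
      refine (Finset.sum_le_sum fun v hv => hM₀ _ hN0 v hv).trans ?_
      rw [Finset.sum_const, nsmul_eq_mul, hη', ← mul_assoc]
      refine mul_le_mul_of_nonneg_right ?_ hNpos.le
      rw [mul_div_assoc', div_le_iff₀ (by positivity)]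
      nlinarith
    · refine (Finset.abs_sum_le_sum_abs _ _).trans (Finset.sum_le_sum fun t _ => ?_)
      exact pointwise hS hR0 (fun w _ => hF1 w) (hW _).2 _ x
  rw [abs_mul, abs_of_pos (inv_pos.2 hNpos)]
  calc (N 0 : ℝ)⁻¹ * |∑ t ∈ Finset.range (N 0), ∏ v, F v (Φ (q (fun _ => t) v) x)| ≤
        (N 0 : ℝ)⁻¹ * (η * N 0 + ∑ t ∈ Finset.range (N 0),
          errb Φ ℓ R H S (q (fun _ => t)) x) :=
        mul_le_mul_of_nonneg_left e2 (inv_pos.2 hNpos).le
    _ = _ := by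
      rw [mul_add]
      congr 1
      field_simp

open Classical in
theorem tendsto_sep {R : ℝ} {f : ℕ → ℝ} (h : Tendsto (fun n => |f n|) atTop atTop) :
    Tendsto (fun N : Fin 1 → ℕ => bx 1 N
      (fun n => if |f (n 0)| < R then (1 : ℝ) else 0)) atTop (𝓝 0) := by
  obtain ⟨n₀, hn₀⟩ := eventually_atTop.1 (h.eventually_ge_atTop R)
  have h1 : Tendsto (fun N : Fin 1 → ℕ => (n₀ : ℝ) / (N 0 : ℝ)) atTop (𝓝 0) := by
    refine Tendsto.div_atTop tendsto_const_nhds ?_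
    refine tendsto_natCast_atTop_atTop.comp (tendsto_atTop_atTop.2 fun b => ⟨fun _ => b,
      fun N hN => hN 0⟩)
  refine squeeze_zero (fun N => ?_) (fun N => ?_) h1
  · exact Pool.Agent.W761.Box.bx_nonneg fun n => by split_ifs <;> norm_num
  · rw [bx_one, inv_mul_eq_div]
    refine div_le_div_of_nonneg_right ?_ (Nat.cast_nonneg _)
    rw [← Finset.sum_filter, Finset.sum_const, nsmul_eq_mul, mul_one]
    have h7 : (Finset.range (N 0)).filter (fun m => |f m| < R) ⊆ Finset.range n₀ := by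
      intro m hm
      have h8 := (Finset.mem_filter.1 hm).2
      rw [Finset.mem_range]
      by_contra h9
      rw [not_lt] at h9
      exact absurd (hn₀ m h9) (not_le.2 h8)
    have h8 := Finset.card_le_card h7
    rw [Finset.card_range] at h8
    exact_mod_cast h8

/-- **Convergence to zero.** -/
theorem seq_zero (hFl : Flow μ Φ) (hA : Filt mX mA Φ ℓ) (hY : Base mY mA Φ)
    {S : Finset J} (hS : S.Nonempty) {q : (Fin 1 → ℕ) → J → G}
    (hq : Good S fun n v => ℓ (q (fun _ => n) v))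
    (hgood : ∀ v ∈ S, Maj μ fun n => (Φ (q n v) : X → X))
    {F : J → X → ℝ} {r : G}
    (hF : ∀ v ∈ S, Measurable[cm mA Φ r] (F v)) (hF1 : ∀ v x, |F v x| ≤ 1)
    (hFY : ∀ v ∉ S, Measurable[mY] (F v))
    (hsm : ∀ ε : ℝ, 0 < ε → ∃ s : G, ℓ s ≤ ℓ r ∧ ∃ H : J → X → ℝ,
      (∀ v ∈ S, CE μ (cm mA Φ s) (F v) (H v)) ∧ ∀ v ∈ S, ∫ x, |H v x| ∂μ ≤ ε) :
    ∀ᵐ x ∂μ, Tendsto (fun N => bx 1 N fun n => ∏ v, F v (Φ (q n v) x)) atTop (𝓝 0) := by
  classical
  have hbad : ∀ δ : ℝ, 0 < δ → ∀ᵐ x ∂μ, ∀ᶠ N : Fin 1 → ℕ in atTop,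
      |bx 1 N fun n => ∏ v, F v (Φ (q n v) x)| ≤ δ := by
    intro δ hδ
    rw [ae_iff, ← nonpos_iff_eq_zero]
    apply ENNReal.le_of_forall_pos_le_add
    intro ε hε _
    rw [zero_add]
    have hε' : (0 : ℝ) < ε := by exact_mod_cast hε
    obtain ⟨s, hsr, H, hH, hHs⟩ := hsm (ε * (δ / 4) / (3 * (S.card + 1))) (by positivity)
    set R : ℝ := max (ℓ r - ℓ s) 1 with hRdef
    have hR : ℓ r - ℓ s ≤ R := le_max_left _ _
    have hR0 : 0 < R := lt_of_lt_of_le one_pos (le_max_right _ _)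
    have hHm : ∀ v ∈ S, Measurable (H v) := fun v hv => (hH v hv).1.mono (cm_le hFl hA s) le_rfl
    have hE' : ∀ v ∈ S, ∃ E : X → ℝ, 0 ≤ᵐ[μ] E ∧ Integrable E μ ∧
        ∫ x, E x ∂μ ≤ 3 * ∫ x, |H v x| ∂μ ∧
        ∀ᵐ x ∂μ, ∀ c : ℝ, E x < c → ∀ᶠ N in atTop,
          bx 1 N (fun n => |H v (Φ (q n v) x)|) < c := fun v hv =>
      hgood v hv (fun x => |H v x|) (hHm v hv).abs
        ⟨1, fun x => by rw [abs_abs]; exact (hH v hv).2.1 x⟩ (fun x => abs_nonneg _)
    choose! E hE using hE'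
    let T : X → ℝ := fun x => ∑ v ∈ S, E v x
    have hT0 : 0 ≤ᵐ[μ] T := by
      have : ∀ᵐ x ∂μ, ∀ v ∈ S, 0 ≤ E v x :=
        (ae_ball_iff S.countable_toSet).2 fun v hv => (hE v hv).1
      filter_upwards [this] with x hx
      exact Finset.sum_nonneg hx
    have hTi : Integrable T μ := integrable_finsetSum _ fun v hv => (hE v hv).2.1
    have hTint : ∫ x, T x ∂μ ≤ ε * (δ / 4) := by
      have : ∫ x, T x ∂μ = ∑ v ∈ S, ∫ x, E v x ∂μ :=
        integral_finsetSum _ fun v hv => (hE v hv).2.1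
      rw [this]
      have h3 : ∀ v ∈ S, ∫ x, E v x ∂μ ≤ ε * (δ / 4) / (S.card + 1) := by
        intro v hv
        refine (hE v hv).2.2.1.trans ?_
        have h4 := mul_le_mul_of_nonneg_left (hHs v hv) (by norm_num : (0 : ℝ) ≤ 3)
        refine h4.trans (le_of_eq ?_)
        field_simp
      refine (Finset.sum_le_sum h3).trans ?_
      rw [Finset.sum_const, nsmul_eq_mul, mul_div_assoc', div_le_iff₀ (by positivity)]
      have : 0 ≤ ε * (δ / 4) := by positivity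
      nlinarith
    have hmark := mul_meas_ge_le_integral_of_nonneg hT0 hTi (δ / 4)
    have hmark' : μ.real {x | δ / 4 ≤ T x} ≤ ε := by
      have h5 : δ / 4 * μ.real {x | δ / 4 ≤ T x} ≤ δ / 4 * ε := by
        refine (hmark.trans hTint).trans ?_
        rw [mul_comm]
      exact le_of_mul_le_mul_left h5 (by positivity)
    have hmain := seq_bound_ae (η := δ / 4) hFl hA hY hS hq hsr hR hR0 hF hF1 hFY hH
      (by positivity)
    have hEall : ∀ᵐ x ∂μ, ∀ v ∈ S, ∀ c : ℝ, E v x < c → ∀ᶠ N in atTop,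
        bx 1 N (fun n => |H v (Φ (q n v) x)|) < c :=
      (ae_ball_iff S.countable_toSet).2 fun v hv => (hE v hv).2.2.2
    have hclose : Tendsto (fun N => ∑ v ∈ S, ∑ w ∈ S.erase v, bx 1 N
        (fun n => if |ℓ (q n v) - ℓ (q n w)| < R then (1 : ℝ) else 0))
        atTop (𝓝 0) := by
      have h5 : Tendsto (fun N => ∑ v ∈ S, ∑ w ∈ S.erase v, bx 1 N
          (fun n => if |ℓ (q n v) - ℓ (q n w)| < R then (1 : ℝ) else 0))
          atTop (𝓝 (∑ v ∈ S, ∑ _w ∈ S.erase v, (0 : ℝ))) := by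
        refine tendsto_finsetSum _ fun v hv => tendsto_finsetSum _ fun w hw => ?_
        have h6 := tendsto_sep (R := R)
          (hq.sep v hv w (Finset.mem_of_mem_erase hw) (Finset.ne_of_mem_erase hw).symm)
        have h7 : ∀ n : Fin 1 → ℕ, (fun _ => n 0) = n := fun n => by
          funext i
          rw [Subsingleton.elim i 0]
        simp only [h7] at h6
        exact h6
      rw [Finset.sum_eq_zero fun v _ => Finset.sum_const_zero] at h5
      exact h5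
    have hsub : ∀ᵐ x ∂μ, x ∈ {x | ¬ ∀ᶠ N : Fin 1 → ℕ in atTop,
        |bx 1 N fun n => ∏ v, F v (Φ (q n v) x)| ≤ δ} → x ∈ {x | δ / 4 ≤ T x} := by
      filter_upwards [hmain, hEall] with x hx1 hx2 hx3
      show δ / 4 ≤ T x
      by_contra hcon
      rw [not_le] at hcon
      apply hx3
      set τ : ℝ := (δ / 4 - T x) / (S.card + 1) with hτ
      have hτ0 : 0 < τ := div_pos (by linarith) (by positivity)
      have h6 : ∀ᶠ N in atTop, ∀ v ∈ S, bx 1 N (fun n => |H v (Φ (q n v) x)|) < E v x + τ :=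
        (Finset.eventually_all S).2 fun v hv => hx2 v hv _ (by linarith)
      have h7 : ∀ᶠ N in atTop, ∑ v ∈ S, (bx 1 N fun n => |H v (Φ (q n v) x)|) ≤ δ / 4 := by
        filter_upwards [h6] with N hN
        refine (Finset.sum_le_sum fun v hv => (hN v hv).le).trans ?_
        rw [Finset.sum_add_distrib, Finset.sum_const, nsmul_eq_mul]
        have h9 : (S.card : ℝ) * τ ≤ δ / 4 - T x := by
          rw [hτ, mul_div_assoc', div_le_iff₀ (by positivity)]
          nlinarith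
        have h10 : ∑ v ∈ S, E v x = T x := rfl
        linarith
      have h8 := (tendsto_order.mp hclose).2 (δ / 4) (by positivity)
      filter_upwards [hx1, h7, h8] with N hN1 hN2 hN3
      refine hN1.trans ?_
      have e : (bx 1 N fun n => errb Φ ℓ R H S (q n) x) =
          ∑ v ∈ S, (bx 1 N fun n => |H v (Φ (q n v) x)|) +
          ∑ v ∈ S, ∑ w ∈ S.erase v, bx 1 N
            (fun n => if |ℓ (q n v) - ℓ (q n w)| < R then (1 : ℝ) else 0) := by
        unfold errb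
        rw [bx_add, bx_sum, bx_sum]
        congr 1
        refine Finset.sum_congr rfl fun v _ => ?_
        rw [bx_sum]
      rw [e]
      linarith
    have h10 : μ {x | ¬ ∀ᶠ N : Fin 1 → ℕ in atTop,
        |bx 1 N fun n => ∏ v, F v (Φ (q n v) x)| ≤ δ} ≤ μ {x | δ / 4 ≤ T x} :=
      measure_mono_ae hsub
    refine h10.trans ?_
    have h9 : μ {x | δ / 4 ≤ T x} = ENNReal.ofReal (μ.real {x | δ / 4 ≤ T x}) := by
      rw [measureReal_def, ENNReal.ofReal_toReal (measure_ne_top _ _)]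
    rw [h9]
    calc ENNReal.ofReal (μ.real {x | δ / 4 ≤ T x}) ≤ ENNReal.ofReal (ε : ℝ) :=
          ENNReal.ofReal_le_ofReal hmark'
      _ = ε := ENNReal.ofReal_coe_nnreal
  have hall := ae_all_iff.mpr fun i : ℕ => hbad (1 / ((i : ℝ) + 1)) (by positivity)
  filter_upwards [hall] with x hx
  rw [Metric.tendsto_nhds]
  intro ε hε
  obtain ⟨i, hi⟩ := exists_nat_one_div_lt hε
  filter_upwards [hx i] with N hN
  rw [Real.dist_eq, sub_zero]
  exact hN.trans_lt hi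

end Pool.Agent.U547.KB
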