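import Pool.Agent.U547.KB.SeqC

/-!
# Two-sided averages
-/

set_option autoImplicit false
set_option linter.unusedSectionVars false

open MeasureTheory Filter Topology
open scoped ENNReal

noncomputable section

namespace Pool.Agent.U547.KB

open Pool.Agent.TH784.KE
open Pool.Agent.W761.Box (bx bxc BM)

/-- the two-sided average -/
def tav (N : ℕ) (F : ℤ → ℝ) : ℝ :=
  ((2 * N + 1 : ℕ) : ℝ)⁻¹ * ∑ n ∈ Finset.Icc (-(N : ℤ)) (N : ℤ), F n

theorem tav_abs {C : ℝ} (N : ℕ) {F : ℤ → ℝ} (hF : ∀ n, |F n| ≤ C) : |tav N F| ≤ C := by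
  have hpos : (0 : ℝ) < ((2 * N + 1 : ℕ) : ℝ) := by positivity
  unfold tav
  rw [abs_mul, abs_of_pos (inv_pos.2 hpos), inv_mul_le_iff₀ hpos]
  refine (Finset.abs_sum_le_sum_abs _ _).trans ?_
  refine (Finset.sum_le_sum fun n _ => hF n).trans ?_
  rw [Finset.sum_const, nsmul_eq_mul, Int.card_Icc]
  have : ((N : ℤ) + 1 - -(N : ℤ)).toNat = 2 * N + 1 := by omega
  rw [this]

theorem tav_const (N : ℕ) (c : ℝ) : tav N (fun _ => c) = c := by
  have hpos : (0 : ℝ) < ((2 * N + 1 : ℕ) : ℝ) := by positivity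
  unfold tav
  rw [Finset.sum_const, nsmul_eq_mul, Int.card_Icc]
  have : ((N : ℤ) + 1 - -(N : ℤ)).toNat = 2 * N + 1 := by omega
  rw [this, ← mul_assoc, inv_mul_cancel₀ hpos.ne', one_mul]

/-- a one-sided average of a nonnegative function is at most three times the two-sided one -/
theorem one_le_three {F : ℤ → ℝ} (hF : ∀ n, 0 ≤ F n) {σ : ℕ → ℤ} (hσ : Function.Injective σ)
    (hσb : ∀ t : ℕ, |σ t| ≤ t) {N : Fin 1 → ℕ} (hN : 1 ≤ N 0) :
    bx 1 N (fun m => F (σ (m 0))) ≤ 3 * tav (N 0) F := by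
  have hpos : (0 : ℝ) < (N 0 : ℝ) := by exact_mod_cast hN
  have hpos2 : (0 : ℝ) < ((2 * N 0 + 1 : ℕ) : ℝ) := by positivity
  rw [bx_one]
  have h1 : ∑ t ∈ Finset.range (N 0), F (σ t) ≤
      ∑ n ∈ Finset.Icc (-(N 0 : ℤ)) (N 0 : ℤ), F n := by
    rw [← Finset.sum_image (f := F) (g := σ) (s := Finset.range (N 0))
      (fun a _ b _ h => hσ h)]
    refine Finset.sum_le_sum_of_subset_of_nonneg ?_ fun n _ _ => hF n
    intro n hn
    obtain ⟨t, ht, rfl⟩ := Finset.mem_image.1 hn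
    have h2 := hσb t
    have h3 : (t : ℤ) < N 0 := by exact_mod_cast Finset.mem_range.1 ht
    rw [abs_le] at h2
    rw [Finset.mem_Icc]
    constructor <;> linarith [h2.1, h2.2]
  have h0 : 0 ≤ ∑ n ∈ Finset.Icc (-(N 0 : ℤ)) (N 0 : ℤ), F n :=
    Finset.sum_nonneg fun n _ => hF n
  refine (mul_le_mul_of_nonneg_left h1 (inv_pos.2 hpos).le).trans ?_
  unfold tav
  rw [← mul_assoc]
  refine mul_le_mul_of_nonneg_right ?_ h0
  rw [← div_eq_mul_inv, inv_eq_one_div, div_le_div_iff₀ hpos hpos2]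
  have h4 : (1 : ℝ) ≤ N 0 := by exact_mod_cast hN
  push_cast
  linarith

section maj

variable {X : Type*} {mX : MeasurableSpace X} {μ : Measure X} [IsProbabilityMeasure μ]

/-- Convergence of the two-sided averages of single functions gives the domination. -/
theorem maj_of_two {T : ℤ → X → X} (hT : ∀ n, MeasurePreserving (T n) μ μ)
    (h : ∀ H : X → ℝ, Measurable H → (∃ C : ℝ, ∀ x, |H x| ≤ C) →
      ∀ᵐ x ∂μ, ∃ L : ℝ, Tendsto (fun N : ℕ => tav N fun n => H (T n x)) atTop (𝓝 L))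
    {σ : ℕ → ℤ} (hσ : Function.Injective σ) (hσb : ∀ t : ℕ, |σ t| ≤ t) :
    Maj μ fun m : Fin 1 → ℕ => T (σ (m 0)) := by
  classical
  intro K hK hKC hK0
  obtain ⟨C, hC⟩ := hKC
  have hC0 : 0 ≤ |C| := abs_nonneg _
  have hC' : ∀ x, |K x| ≤ |C| := fun x => (hC x).trans (le_abs_self _)
  set A : ℕ → X → ℝ := fun N x => tav N fun n => K (T n x) with hA
  have hAm : ∀ N, Measurable (A N) := by
    intro N
    refine Measurable.const_mul ?_ _
    exact Finset.measurable_fun_sum _ fun n _ => hK.comp (hT n).measurable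
  have hAb : ∀ N x, |A N x| ≤ |C| := fun N x => tav_abs N fun n => hC' _
  have hA0 : ∀ N x, 0 ≤ A N x := fun N x =>
    mul_nonneg (by positivity) (Finset.sum_nonneg fun n _ => hK0 _)
  let L : X → ℝ := fun x => if hx : ∃ L : ℝ, Tendsto (fun N => A N x) atTop (𝓝 L)
    then hx.choose else 0
  have hL : ∀ᵐ x ∂μ, Tendsto (fun N => A N x) atTop (𝓝 (L x)) := by
    filter_upwards [h K hK ⟨C, hC⟩] with x hx
    have e : L x = hx.choose := dif_pos hx
    rw [e]
    exact hx.choose_spec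
  have hLm : AEStronglyMeasurable L μ :=
    aestronglyMeasurable_of_tendsto_ae atTop (fun N => (hAm N).aestronglyMeasurable) hL
  have hLb : ∀ᵐ x ∂μ, ‖L x‖ ≤ |C| := by
    filter_upwards [hL] with x hx
    refine le_of_tendsto hx.norm (Eventually.of_forall fun N => ?_)
    rw [Real.norm_eq_abs]
    exact hAb N x
  have hL0 : ∀ᵐ x ∂μ, 0 ≤ L x := by
    filter_upwards [hL] with x hx
    exact ge_of_tendsto hx (Eventually.of_forall fun N => hA0 N x)
  have hLi : Integrable L μ := Integrable.of_bound hLm |C| hLb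
  have hKi : Integrable K μ := Integrable.of_bound hK.aestronglyMeasurable |C|
    (Eventually.of_forall fun x => by rw [Real.norm_eq_abs]; exact hC' x)
  have hAint : ∀ N, ∫ x, A N x ∂μ = ∫ x, K x ∂μ := by
    intro N
    have h1 : ∀ n, ∫ x, K (T n x) ∂μ = ∫ x, K x ∂μ := by
      intro n
      have h2 := integral_map (hT n).measurable.aemeasurable (f := K) (μ := μ)
        (hK.aestronglyMeasurable)
      rw [(hT n).map_eq] at h2
      exact h2.symm
    calc ∫ x, A N x ∂μ = tav N (fun n => ∫ x, K (T n x) ∂μ) := by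
          show ∫ x, ((2 * N + 1 : ℕ) : ℝ)⁻¹ *
            ∑ n ∈ Finset.Icc (-(N : ℤ)) (N : ℤ), K (T n x) ∂μ = _
          rw [integral_const_mul, integral_finsetSum _ fun n _ => ?_]
          · rfl
          · exact (hT n).integrable_comp_of_integrable hKi
      _ = tav N (fun _ => ∫ x, K x ∂μ) := by
          congr 1
          funext n
          exact h1 n
      _ = ∫ x, K x ∂μ := tav_const _ _
  have hLint : ∫ x, L x ∂μ = ∫ x, K x ∂μ := by
    have h1 := tendsto_integral_of_dominated_convergence (fun _ => |C|) (F := A) (f := L)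
      (fun N => (hAm N).aestronglyMeasurable) (integrable_const _)
      (fun N => Eventually.of_forall fun x => by rw [Real.norm_eq_abs]; exact hAb N x) hL
    simp only [hAint] at h1
    exact (tendsto_nhds_unique h1 tendsto_const_nhds)
  refine ⟨fun x => 3 * L x, ?_, hLi.const_mul 3, ?_, ?_⟩
  · filter_upwards [hL0] with x hx
    exact mul_nonneg (by norm_num) hx
  · rw [integral_const_mul, hLint]
  · filter_upwards [hL] with x hx c hc
    have h1 : Tendsto (fun N : Fin 1 → ℕ => 3 * A (N 0) x) atTop (𝓝 (3 * L x)) := by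
      have h2 : Tendsto (fun N : Fin 1 → ℕ => N 0) atTop atTop :=
        tendsto_atTop_atTop.2 fun b => ⟨fun _ => b, fun N hN => hN 0⟩
      exact (hx.comp h2).const_mul 3
    have h3 := h1.eventually_lt_const hc
    have h4 : ∀ᶠ N : Fin 1 → ℕ in atTop, 1 ≤ N 0 :=
      eventually_atTop.2 ⟨fun _ => 1, fun N hN => hN 0⟩
    filter_upwards [h3, h4] with N hN hN1
    exact (one_le_three (F := fun n => K (T n x)) (fun n => hK0 _) hσ hσb hN1).trans_lt hN

/-- Convergence of the averages of single functions gives the domination. -/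
theorem maj_of_good {k : ℕ} {g : (Fin k → ℕ) → X → X} (hg : ∀ m, MeasurePreserving (g m) μ μ)
    (h : Pool.Agent.W761.Box.Good1 μ g) : Maj μ g := by
  classical
  intro K hK hKC hK0
  obtain ⟨C, hC⟩ := hKC
  have hC' : ∀ x, |K x| ≤ |C| := fun x => (hC x).trans (le_abs_self _)
  let L : X → ℝ := fun x => if hx : ∃ L : ℝ, Tendsto (fun N => bx k N fun m => K (g m x)) atTop (𝓝 L)
    then hx.choose else 0
  have hL : ∀ᵐ x ∂μ, Tendsto (fun N => bx k N fun m => K (g m x)) atTop (𝓝 (L x)) := by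
    filter_upwards [h K hK ⟨C, hC⟩] with x hx
    have e : L x = hx.choose := dif_pos hx
    rw [e]
    exact hx.choose_spec
  obtain ⟨h1, h2, h3⟩ := Pool.Agent.W761.Box.int_lim_le' hg hK (abs_nonneg C) hC' hK0 hL
  refine ⟨L, h1, h2, h3.trans ?_, ?_⟩
  · have : 0 ≤ ∫ x, K x ∂μ := integral_nonneg hK0
    linarith
  · filter_upwards [hL] with x hx c hc
    exact hx.eventually_lt_const hc

end maj

theorem comp_neg_degree {P : Polynomial ℝ} (h : 0 < P.degree) :
    0 < (P.comp (-Polynomial.X)).degree := by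
  rw [← Polynomial.natDegree_pos_iff_degree_pos] at h ⊢
  rw [Polynomial.natDegree_comp, Polynomial.natDegree_neg, Polynomial.natDegree_X, mul_one]
  exact h

theorem comp_neg_eval (P : Polynomial ℝ) (t : ℝ) : (P.comp (-Polynomial.X)).eval t = P.eval (-t) := by
  rw [Polynomial.eval_comp, Polynomial.eval_neg, Polynomial.eval_X]

variable {X : Type*} {mA mY mX : MeasurableSpace X} {μ : Measure X} [IsProbabilityMeasure μ]
variable {G : Type*} [Group G]
variable {Φ : G →* Equiv.Perm X} {ℓ : G → ℝ}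
variable {J : Type*} [DecidableEq J] [Fintype J]

theorem good_poly {q : ℕ → J → G} {L : J → Polynomial ℝ}
    (hq : ∀ n j, ℓ (q n j) = (L j).eval (n : ℝ)) (hL : ∀ j, 0 < (L j).degree)
    (hLL : ∀ i j, i ≠ j → 0 < (L i - L j).degree) :
    Good Finset.univ fun n v => ℓ (q n v) := by
  refine ⟨fun v _ => ?_, fun v _ w _ h => ?_⟩
  · simp only [hq]
    exact poly_mono (hL v)
  · simp only [hq]
    exact poly_sep (hLL v w h)

/-- the domination from the averages of single functions along a sequence in the group -/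
theorem maj_single (hFl : Flow μ Φ) {q : ℤ → G}
    (h : ∀ H : X → ℝ, Measurable H → (∃ C : ℝ, ∀ x, |H x| ≤ C) →
      ∀ᵐ x ∂μ, ∃ L : ℝ, Tendsto (fun N : ℕ => tav N fun n => H (Φ (q n) x)) atTop (𝓝 L)) :
    Maj μ (fun m : Fin 1 → ℕ => (Φ (q (m 0 : ℤ)) : X → X)) ∧
      Maj μ (fun m : Fin 1 → ℕ => (Φ (q (-(m 0 : ℤ))) : X → X)) :=
  ⟨maj_of_two (T := fun n => (Φ (q n) : X → X)) (σ := fun t : ℕ => (t : ℤ)) (fun n => hFl _) h
      Nat.cast_injective (fun t => by simp),
    maj_of_two (T := fun n => (Φ (q n) : X → X)) (σ := fun t : ℕ => -(t : ℤ)) (fun n => hFl _) h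
      (fun a b h => by simpa using h) (fun t => by simp)⟩

/-- the domination along `c b^n` -/
theorem maj_pow (hFl : Flow μ Φ) {q : ℤ → G} (c b : G) (h : ∀ n, q n = c * b ^ n) :
    Maj μ (fun m : Fin 1 → ℕ => (Φ (q (m 0 : ℤ)) : X → X)) ∧
      Maj μ (fun m : Fin 1 → ℕ => (Φ (q (-(m 0 : ℤ))) : X → X)) := by
  have h1 := maj_of_good (fun m => hFl _) (good_pr hFl c (fun _ : Fin 1 => b))
  have h2 := maj_of_good (fun m => hFl _) (good_pr hFl c (fun _ : Fin 1 => b⁻¹))
  have e1 : (fun m : Fin 1 → ℕ => (Φ (c * pr (fun _ : Fin 1 => b) m) : X → X)) =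
      fun m : Fin 1 → ℕ => (Φ (q (m 0 : ℤ)) : X → X) := by
    funext m
    rw [h]
    simp [pr]
  have e2 : (fun m : Fin 1 → ℕ => (Φ (c * pr (fun _ : Fin 1 => b⁻¹) m) : X → X)) =
      fun m : Fin 1 → ℕ => (Φ (q (-(m 0 : ℤ))) : X → X) := by
    funext m
    rw [h]
    simp [pr]
  rw [e1] at h1
  rw [e2] at h2
  exact ⟨h1, h2⟩

/-- **The base is characteristic for the two-sided averages along polynomial sequences.** -/
theorem seq_two (hK : KExt μ mA mY Φ ℓ) {q : J → ℤ → G} {L : J → Polynomial ℝ}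
    (hq : ∀ j n, ℓ (q j n) = (L j).eval (n : ℝ)) (hL : ∀ j, 0 < (L j).degree)
    (hLL : ∀ i j, i ≠ j → 0 < (L i - L j).degree)
    (hmaj : ∀ j, Maj μ (fun m : Fin 1 → ℕ => (Φ (q j (m 0 : ℤ)) : X → X)) ∧
      Maj μ (fun m : Fin 1 → ℕ => (Φ (q j (-(m 0 : ℤ))) : X → X)))
    {f e : J → X → ℂ}
    (hf : ∀ j, @BM X mX (f j)) (he : ∀ j, @BM X mX (e j)) (heY : ∀ j, Measurable[mY] (e j))
    (hfe : ∀ j, ∀ B : Set X, MeasurableSet[mY] B → ∫ x in B, (f j x - e j x) ∂μ = 0) :
    ∀ᵐ x ∂μ, Tendsto (fun N : ℕ => ((2 * N + 1 : ℕ) : ℂ)⁻¹ *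
      ∑ n ∈ Finset.Icc (-(N : ℤ)) (N : ℤ), (∏ j, f j (Φ (q j n) x) -
        ∏ j, e j (Φ (q j n) x))) atTop (𝓝 0) := by
  rcases isEmpty_or_nonempty J with hJ | ⟨⟨j₀⟩⟩
  · refine Eventually.of_forall fun x => ?_
    simp
  have hs : ∃ s₀ : G, 0 < ℓ s₀ := by
    have h1 := (Polynomial.abs_tendsto_atTop (L j₀) (hL j₀)).comp
      (tendsto_natCast_atTop_atTop (R := ℝ))
    obtain ⟨n, hn⟩ := (h1.eventually_ge_atTop 1).exists
    have h2 : (1 : ℝ) ≤ |(L j₀).eval (n : ℝ)| := hn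
    have h3 : ℓ (q j₀ n) = (L j₀).eval (n : ℝ) := by
      rw [hq]
      simp
    rcases lt_trichotomy (ℓ (q j₀ n)) 0 with h4 | h4 | h4
    · refine ⟨(q j₀ n)⁻¹, ?_⟩
      have h5 := hK.filt.hom (q j₀ n) (q j₀ n)⁻¹
      have h6 := hK.filt.hom 1 1
      rw [mul_inv_cancel] at h5
      rw [mul_one] at h6
      linarith
    · rw [← h3, h4, abs_zero] at h2
      linarith
    · exact ⟨_, h4⟩
  obtain ⟨s₀, hs₀⟩ := hs
  have hpos := seq_char hK hs₀ (q := fun m j => q j (m 0 : ℤ))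
    (good_poly (q := fun n j => q j (n : ℤ)) (L := L) (fun n j => by rw [hq]; simp) hL hLL)
    (fun v => (hmaj v).1) hf he heY hfe
  have hneg := seq_char hK hs₀ (q := fun m j => q j (-(m 0 : ℤ)))
    (good_poly (q := fun n j => q j (-(n : ℤ))) (L := fun j => (L j).comp (-Polynomial.X))
      (fun n j => by rw [hq, comp_neg_eval]; simp) (fun j => comp_neg_degree (hL j))
      (fun i j hij => by
        show 0 < ((L i).comp (-Polynomial.X) - (L j).comp (-Polynomial.X)).degree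
        rw [← Polynomial.sub_comp]
        exact comp_neg_degree (hLL i j hij)))
    (fun v => (hmaj v).2) hf he heY hfe
  filter_upwards [hpos, hneg] with x hx1 hx2
  exact two_sided_zero (F := fun n : ℤ => (∏ j, f j (Φ (q j n) x) -
        ∏ j, e j (Φ (q j n) x))) hx1 hx2

end Pool.Agent.U547.KB
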